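import Pool.Agent.W79.BP.Defs

set_option autoImplicit false

namespace Pool.Agent.W154.BP

open scoped Classical
open Pool.Agent.W79.BP

theorem SO_swap {n : ℕ} (σ : Equiv.Perm (Fin n)) (p : Fin n × Fin n) (u v : Fin n) :
    SO σ p (u, v) → SO σ p (v, u) := by
  rintro ⟨k, h | h⟩
  · exact ⟨k, Or.inr h⟩
  · exact ⟨k, Or.inl h⟩

theorem SO_diag {n : ℕ} (σ : Equiv.Perm (Fin n)) (p : Fin n × Fin n) (hp : p.1 ≠ p.2) (u : Fin n) :
    ¬ SO σ p (u, u) := by
  rintro ⟨k, h | h⟩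
  · exact hp ((σ ^ k).injective (h.1.trans h.2.symm))
  · exact hp ((σ ^ k).injective (h.1.trans h.2.symm))

theorem SO_shift {n : ℕ} (σ : Equiv.Perm (Fin n)) (p : Fin n × Fin n) (u v : Fin n) :
    SO σ p (σ u, σ v) ↔ SO σ p (u, v) := by
  constructor
  · rintro ⟨k, h⟩
    refine ⟨-1 + k, ?_⟩
    have hk : ∀ x, (σ ^ (-1 + k)) x = σ⁻¹ ((σ ^ k) x) := by
      intro x
      rw [zpow_add, zpow_neg_one, Equiv.Perm.mul_apply]
    rw [hk, hk]
    rcases h with ⟨h1, h2⟩ | ⟨h1, h2⟩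
    · left
      simp only at h1 h2
      rw [h1, h2]
      simp
    · right
      simp only at h1 h2
      rw [h1, h2]
      simp
  · rintro ⟨k, h⟩
    refine ⟨1 + k, ?_⟩
    have hk : ∀ x, (σ ^ (1 + k)) x = σ ((σ ^ k) x) := by
      intro x
      rw [zpow_add, zpow_one, Equiv.Perm.mul_apply]
    rw [hk, hk]
    rcases h with ⟨h1, h2⟩ | ⟨h1, h2⟩
    · left
      simp only at h1 h2
      rw [h1, h2]
      simp
    · right
      simp only at h1 h2
      rw [h1, h2]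
      simp

/-- the flip -/
def flip {n : ℕ} (σ : Equiv.Perm (Fin n)) {J : Type} (p : J → Fin n × Fin n)
    (hp : ∀ j, (p j).1 ≠ (p j).2) (s : Finset J) (β : SimpleGraph (Fin n)) :
    SimpleGraph (Fin n) where
  Adj u v := ¬ (β.Adj u v ↔ ∃ j ∈ s, SO σ (p j) (u, v))
  symm := ⟨by
    intro u v h h'
    apply h
    have e1 : β.Adj u v ↔ β.Adj v u := β.adj_comm u v
    have e2 : (∃ j ∈ s, SO σ (p j) (u, v)) ↔ ∃ j ∈ s, SO σ (p j) (v, u) :=
      ⟨fun ⟨j, hj, h⟩ => ⟨j, hj, SO_swap _ _ _ _ h⟩, fun ⟨j, hj, h⟩ => ⟨j, hj, SO_swap _ _ _ _ h⟩⟩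
    rw [e1, e2]
    exact h'⟩
  loopless := ⟨by
    intro u h
    apply h
    constructor
    · intro h1; exact absurd h1 (β.loopless.irrefl u)
    · rintro ⟨j, _, h2⟩
      exact absurd h2 (SO_diag σ (p j) (hp j) u)⟩

theorem flip_adj {n : ℕ} (σ : Equiv.Perm (Fin n)) {J : Type} (p : J → Fin n × Fin n)
    (hp : ∀ j, (p j).1 ≠ (p j).2) (s : Finset J) (β : SimpleGraph (Fin n)) (u v : Fin n) :
    (flip σ p hp s β).Adj u v ↔ ¬ (β.Adj u v ↔ ∃ j ∈ s, SO σ (p j) (u, v)) := Iff.rfl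

theorem flip_flip {n : ℕ} (σ : Equiv.Perm (Fin n)) {J : Type} (p : J → Fin n × Fin n)
    (hp : ∀ j, (p j).1 ≠ (p j).2) (s : Finset J) (β : SimpleGraph (Fin n)) :
    flip σ p hp s (flip σ p hp s β) = β := by
  ext u v
  rw [flip_adj, flip_adj]
  generalize (∃ j ∈ s, SO σ (p j) (u, v)) = R
  generalize β.Adj u v = A
  by_cases hR : R <;> by_cases hA : A <;> simp [hR, hA]

theorem mem_Fx {n : ℕ} (σ : Equiv.Perm (Fin n)) (δ : SimpleGraph (Fin n)) :
    δ ∈ Fx σ ↔ ∀ u v, δ.Adj (σ u) (σ v) ↔ δ.Adj u v := by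
  unfold Fx
  rw [Finset.mem_filter]
  constructor
  · rintro ⟨_, h⟩ u v
    conv_rhs => rw [← h]
    rfl
  · intro h
    refine ⟨Finset.mem_univ _, ?_⟩
    ext u v
    exact h u v

theorem flip_mem {n : ℕ} (σ : Equiv.Perm (Fin n)) {J : Type} (p : J → Fin n × Fin n)
    (hp : ∀ j, (p j).1 ≠ (p j).2) (s : Finset J) (β : SimpleGraph (Fin n)) (hβ : β ∈ Fx σ) :
    flip σ p hp s β ∈ Fx σ := by
  rw [mem_Fx] at hβ ⊢
  intro u v
  rw [flip_adj, flip_adj, hβ u v]
  simp only [SO_shift]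

theorem main : S_FLIP := by
  intro n σ J _ p hp _ B M hB hM
  have h1 : ∀ s : Finset J, ((Fx σ).filter (fun β => flip σ p hp s β ∈ B)).card = B.card := by
    intro s
    refine Finset.card_bij (fun β _ => flip σ p hp s β) ?_ ?_ ?_
    · intro β hβ
      exact (Finset.mem_filter.1 hβ).2
    · intro β _ β' _ h
      have := congrArg (flip σ p hp s) h
      rwa [flip_flip, flip_flip] at this
    · intro δ hδ
      refine ⟨flip σ p hp s δ, Finset.mem_filter.2 ⟨flip_mem σ p hp s δ (hB hδ), ?_⟩, flip_flip ..⟩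
      rw [flip_flip]
      exact hδ
  have h2 : ∀ β ∈ Fx σ, ((Finset.univ : Finset (Finset J)).filter
      (fun s => flip σ p hp s β ∈ B)).card ≤ M := by
    intro β hβ
    refine le_trans (Finset.card_le_card ?_) (hM β hβ)
    intro s hs
    rw [Finset.mem_filter] at hs ⊢
    exact ⟨hs.1, flip σ p hp s β, hs.2, fun u v => flip_adj σ p hp s β u v⟩
  calc B.card * 2 ^ Fintype.card J = ∑ _s : Finset J, B.card := by
        rw [Finset.sum_const, Finset.card_univ, Fintype.card_finset, smul_eq_mul, mul_comm]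
    _ = ∑ s : Finset J, ((Fx σ).filter (fun β => flip σ p hp s β ∈ B)).card :=
        Finset.sum_congr rfl (fun s _ => (h1 s).symm)
    _ = ∑ s : Finset J, ∑ β ∈ Fx σ, if flip σ p hp s β ∈ B then 1 else 0 :=
        Finset.sum_congr rfl (fun s _ => Finset.card_filter _ _)
    _ = ∑ β ∈ Fx σ, ∑ s : Finset J, if flip σ p hp s β ∈ B then 1 else 0 := Finset.sum_comm
    _ = ∑ β ∈ Fx σ, ((Finset.univ : Finset (Finset J)).filter
          (fun s => flip σ p hp s β ∈ B)).card :=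
        Finset.sum_congr rfl (fun β _ => (Finset.card_filter _ _).symm)
    _ ≤ ∑ _β ∈ Fx σ, M := Finset.sum_le_sum h2
    _ = (Fx σ).card * M := by rw [Finset.sum_const, smul_eq_mul]

end Pool.Agent.W154.BP
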